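import Mathlib
import Pool.Agent.Run7.h869.Fin3

set_option autoImplicit false

namespace Pool.Agent.Results.MP_b67468_ag.BlockDegrees

/-- The Eisenbud-Weyman question has a positive answer, over every field and in every number
`n ≥ s` of variables, for all degree sequences `d_0 < ... < d_s` such that `s - 1` consecutive
terms form an arithmetic progression whose difference divides all `d_i - d_0`. -/
theorem result :
    ∀ (k : Type) [Field k] (n s : ℕ) (d : ℕ → ℤ), s ≤ n → (∀ i < s, d i < d (i + 1)) →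
      (∃ (r : ℤ) (j : ℕ), 0 < r ∧ j ≤ 2 ∧ (∀ i ≤ s, r ∣ d i - d 0) ∧
        ∀ i, j ≤ i → i + 2 < j + s → d (i + 1) = d i + r) →
      ∃ N : ℕ, ∀ β : ℕ → ℕ, (∀ i, s < i → β i = 0) → 0 < β 0 → N ≤ β 0 →
        (∀ i ≤ s, ∀ i' ≤ s,
          (β i : ℤ) * ∏ j ∈ (Finset.range (s + 1)).erase i, |d j - d i| =
            (β i' : ℤ) * ∏ j ∈ (Finset.range (s + 1)).erase i', |d j - d i'|) →
        ∃ f : (i : ℕ) → (Fin (β (i + 1)) → MvPolynomial (Fin n) k) →ₗ[MvPolynomial (Fin n) k]
              (Fin (β i) → MvPolynomial (Fin n) k),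
          (∀ (i : ℕ) (a : Fin (β i)) (b : Fin (β (i + 1))),
            (f i (Pi.single b 1) a).IsHomogeneous (d (i + 1) - d i).toNat) ∧
          (∀ i : ℕ, LinearMap.range (f (i + 1)) = LinearMap.ker (f i)) := by
  intro k _ n s d hsn hd hblock
  exact Run7.h869.main_thm k n s d hsn hd hblock

end Pool.Agent.Results.MP_b67468_ag.BlockDegrees
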